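import Pool.Agent.SGL.StmtsU

/-!
# Row PSI of squad SGL: a matching of the levels with the slices respects the positions
-/

set_option autoImplicit false

namespace Pool.Agent.SGL.H10

open Finset

/-- Row PSI. -/
theorem psi : PsiStmt := by
  intro V n t h k k' lev pos ρ ψ g g' hinj hmono h3 h4 h5 h6 h7 h8
  classical
  -- on one level the positions and the ranks are in the same order
  have hlt : ∀ u v, u ≠ t → v ≠ t → lev u = lev v → ρ (ψ u) < ρ (ψ v) → pos u < pos v := by
    intro u v hu hv hl hr
    by_contra hc
    rcases Nat.lt_or_ge (pos v) (pos u) with h1 | h1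
    · exact absurd (hmono v u hv hu hl.symm h1) (by omega)
    · have h2 : u = v := hinj u v hu hv hl (by omega)
      subst h2
      exact absurd hr (lt_irrefl _)
  have hps : ∀ u v, u ≠ t → v ≠ t → lev u = lev v → ψ u = ψ v → u = v := by
    intro u v hu hv hl he
    apply hinj u v hu hv hl
    by_contra hc
    rcases Nat.lt_or_gt_of_ne hc with h1 | h1
    · have h2 := hmono u v hu hv hl h1
      rw [he] at h2
      exact lt_irrefl _ h2
    · have h2 := hmono v u hv hu hl.symm h1
      rw [he] at h2
      exact lt_irrefl _ h2
  constructor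
  · choose! idx hidx using h4
    have hg : ∀ i j, 1 ≤ i → i ≤ k + 1 → 1 ≤ j → j ≤ k + 1 → g i = g j → i = j := by
      intro i j hi hi' hj hj' he
      by_contra hc
      rcases Nat.lt_or_gt_of_ne hc with h1 | h1
      · have h2 := h5 i j hi h1 hj'
        rw [he] at h2
        exact lt_irrefl _ h2
      · have h2 := h5 j i hj h1 hi'
        rw [he] at h2
        exact lt_irrefl _ h2
    intro w hw hw0
    have hib : ib t lev pos w = idx w := by
      unfold ib
      rw [if_neg hw]
      have h9 : idx w = (Finset.Icc 1 (idx w)).card := by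
        rw [Nat.card_Icc]
        omega
      rw [h9]
      refine Finset.card_bij (fun w' _ => idx w') ?_ ?_ ?_
      · intro w' hw'
        rw [Finset.mem_filter] at hw'
        obtain ⟨-, hw't, hw'0, hle⟩ := hw'
        rw [Finset.mem_Icc]
        refine ⟨(hidx w' hw't hw'0).1, ?_⟩
        by_contra hc
        have h10 := h5 (idx w) (idx w') (hidx w hw hw0).1 (by omega) (hidx w' hw't hw'0).2.1
        rw [(hidx w hw hw0).2.2, (hidx w' hw't hw'0).2.2] at h10
        have h11 := hlt w' w hw't hw (by rw [hw'0, hw0]) h10
        omega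
      · intro a ha b hb hab
        rw [Finset.mem_filter] at ha hb
        have h10 := (hidx a ha.2.1 ha.2.2.1).2.2
        have h11 := (hidx b hb.2.1 hb.2.2.1).2.2
        rw [hab, h11] at h10
        exact hps a b ha.2.1 hb.2.1 (by rw [ha.2.2.1, hb.2.2.1]) h10.symm
      · intro j hj
        rw [Finset.mem_Icc] at hj
        have hjk : j ≤ k + 1 := hj.2.trans (hidx w hw hw0).2.1
        obtain ⟨w', hw't, hw'0, hw'⟩ := h3 j hj.1 hjk
        have h10 : idx w' = j := by
          apply hg _ _ (hidx w' hw't hw'0).1 (hidx w' hw't hw'0).2.1 hj.1 hjk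
          rw [(hidx w' hw't hw'0).2.2, hw']
        refine ⟨w', ?_, h10⟩
        rw [Finset.mem_filter]
        refine ⟨Finset.mem_univ _, hw't, hw'0, ?_⟩
        by_contra hc
        have h11 := hmono w' w hw't hw (by rw [hw'0, hw0]) (by omega)
        rw [hw', ← (hidx w hw hw0).2.2] at h11
        rcases Nat.lt_or_ge j (idx w) with h12 | h12
        · have h13 := h5 j (idx w) hj.1 h12 (hidx w hw hw0).2.1
          omega
        · have h13 : j = idx w := by omega
          rw [h13] at h11
          exact lt_irrefl _ h11
    rw [hib]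
    exact (hidx w hw hw0).2.2.symm
  · choose! idx hidx using h7
    have hg : ∀ i j, i ≤ k' → j ≤ k' → g' i = g' j → i = j := by
      intro i j hi' hj' he
      by_contra hc
      rcases Nat.lt_or_gt_of_ne hc with h1 | h1
      · have h2 := h8 i j h1 hj'
        rw [he] at h2
        exact lt_irrefl _ h2
      · have h2 := h8 j i h1 hi'
        rw [he] at h2
        exact lt_irrefl _ h2
    intro w hw hw0
    have hih : ih t k' h lev pos w = idx w := by
      unfold ih
      rw [if_neg hw]
      have h9 : idx w = (Finset.range (idx w)).card := (Finset.card_range _).symm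
      rw [h9]
      refine Finset.card_bij (fun w' _ => idx w') ?_ ?_ ?_
      · intro w' hw'
        rw [Finset.mem_filter] at hw'
        obtain ⟨-, hw't, hw'0, hle⟩ := hw'
        rw [Finset.mem_range]
        by_contra hc
        have h11 := hmono w' w hw't hw (by rw [hw'0, hw0]) hle
        rw [← (hidx w hw hw0).2, ← (hidx w' hw't hw'0).2] at h11
        rcases Nat.lt_or_ge (idx w) (idx w') with h12 | h12
        · have h13 := h8 (idx w) (idx w') h12 (hidx w' hw't hw'0).1
          omega
        · have h13 : idx w = idx w' := by omega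
          rw [h13] at h11
          exact lt_irrefl _ h11
      · intro a ha b hb hab
        rw [Finset.mem_filter] at ha hb
        have h10 := (hidx a ha.2.1 ha.2.2.1).2
        have h11 := (hidx b hb.2.1 hb.2.2.1).2
        rw [hab, h11] at h10
        exact hps a b ha.2.1 hb.2.1 (by rw [ha.2.2.1, hb.2.2.1]) h10.symm
      · intro j hj
        rw [Finset.mem_range] at hj
        have hjk : j ≤ k' := hj.le.trans (hidx w hw hw0).1
        obtain ⟨w', hw't, hw'0, hw'⟩ := h6 j hjk
        have h10 : idx w' = j := by
          apply hg _ _ (hidx w' hw't hw'0).1 hjk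
          rw [(hidx w' hw't hw'0).2, hw']
        refine ⟨w', ?_, h10⟩
        rw [Finset.mem_filter]
        refine ⟨Finset.mem_univ _, hw't, hw'0, ?_⟩
        apply hlt w' w hw't hw (by rw [hw'0, hw0])
        rw [hw', ← (hidx w hw hw0).2]
        exact h8 j (idx w) hj (hidx w hw hw0).1
    rw [hih]
    exact (hidx w hw hw0).2.symm

end Pool.Agent.SGL.H10
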